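import Pool.Agent.W593.ZT.Stm

/-! Project ZT, part MONO: no monochromatic tree of depth two. -/

open scoped Classical
open Pool.Agent.W593.ZT

set_option autoImplicit false

namespace Pool.Agent.W140.ZT

theorem mono : S_MONO := by
  intro V G _ _ _ c hc x a
  by_contra hcon
  push Not at hcon
  choose! f hf using hcon
  apply hc.not
  refine ⟨x, fun v => if c x v = a then x else f v, ?_, ?_⟩
  · intro v hv
    by_cases h : c x v = a
    · simp only [h, if_true]
      exact ⟨hv.symm, Or.inl trivial⟩
    · have h1 := hf v hv h
      simp only [h, if_false]
      refine ⟨?_, Or.inr ?_⟩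
      · intro h2
        rw [h2] at h1
        exact h h1.2.1
      · simp [h1.2.1]
  · have h2 : ∀ v ∈ Finset.univ.erase x, c v (if c x v = a then x else f v) = a := by
      intro v hv
      have hvx : v ≠ x := Finset.ne_of_mem_erase hv
      by_cases h : c x v = a
      · simp only [h, if_true]
        rw [hc.sym]
        exact h
      · have h1 := hf v hvx h
        simp only [h, if_false]
        rw [hc.sym]
        exact h1.2.2
    rw [Finset.sum_congr rfl h2, Finset.sum_const, Finset.card_erase_of_mem (Finset.mem_univ _),
      Finset.card_univ, hc.card, Nat.add_sub_cancel]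
    exact card_nsmul_eq_zero

end Pool.Agent.W140.ZT
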